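import Pool.Agent.Lib.MP_1c11af_pr.PL.Asym2

/-!
The diameter of the random spanning tree of the complete graph with edge weights
`exp (U ^ (-γ))` is `n ^ max (1/3) ((1 - γ)/2)` up to powers of `log n`.
-/

namespace Pool.Agent.Results.MP_1c11af_pr.Polylog

open MeasureTheory Filter Topology
open scoped Classical

/-- The edges of the complete graph on `n` vertices. -/
abbrev Edge (n : ℕ) : Type := (⊤ : SimpleGraph (Fin n)).edgeSet

/-- The law of the environment: independent uniform variables on `[0,1]`, one for each edge. -/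
noncomputable def env (n : ℕ) : Measure (Edge n → ℝ) :=
  Measure.pi (fun _ => volume.restrict (Set.Icc (0 : ℝ) 1))

/-- The weight of a subgraph: the product of `exp (U e ^ (-γ))` over its edges. -/
noncomputable def weight (γ : ℝ) (n : ℕ) (U : Edge n → ℝ) (T : SimpleGraph (Fin n)) : ℝ :=
  ∏ e : Edge n, if e.1 ∈ T.edgeSet then Real.exp (U e ^ (-γ)) else 1

/-- Given the environment, the probability that the random spanning tree has property `A`. -/
noncomputable def quenched (γ : ℝ) (n : ℕ) (U : Edge n → ℝ) (A : SimpleGraph (Fin n) → Prop) : ℝ :=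
  (∑ T : SimpleGraph (Fin n), if T.IsTree ∧ A T then weight γ n U T else 0) /
    ∑ T : SimpleGraph (Fin n), if T.IsTree then weight γ n U T else 0

/-- The averaged probability that the random spanning tree has property `A`. -/
noncomputable def averaged (γ : ℝ) (n : ℕ) (A : SimpleGraph (Fin n) → Prop) : ℝ :=
  ∫ U, quenched γ n U A ∂(env n)

/-- The diameter of the random spanning tree is `n ^ (α + o(1))`. -/
def HasExponent (γ α : ℝ) : Prop :=
  ∀ ε : ℝ, 0 < ε → Tendsto (fun n : ℕ => averaged γ n (fun T =>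
    (n : ℝ) ^ (α - ε) ≤ (T.diam : ℝ) ∧ (T.diam : ℝ) ≤ (n : ℝ) ^ (α + ε))) atTop (𝓝 1)

open Pool.Agent.Lib.MP_1c11af_pr

lemma edgeFinset_gr {n : ℕ} {S : Finset (Sym2 (Fin n))} (hS : IsT S) :
    (gr S).edgeFinset = S := by
  ext e
  induction e using Sym2.ind with
  | _ a b =>
    rw [SimpleGraph.mem_edgeFinset, SimpleGraph.mem_edgeSet, gr_adj]
    exact ⟨fun h => h.1, fun h => ⟨h, hS.ne h⟩⟩

lemma isTree_gr {n : ℕ} (hn : 1 ≤ n) {S : Finset (Sym2 (Fin n))} (hS : IsT S) : (gr S).IsTree := by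
  have : Nonempty (Fin n) := ⟨⟨0, hn⟩⟩
  refine SimpleGraph.isTree_iff_connected_and_card.2 ⟨⟨hS.1⟩, ?_⟩
  rw [Nat.card_eq_fintype_card, Nat.card_eq_fintype_card, ← SimpleGraph.edgeFinset_card,
    edgeFinset_gr hS]
  exact hS.2

lemma weight_eq (γ : ℝ) {n : ℕ} (U : Sym2 (Fin n) → ℝ) (T : SimpleGraph (Fin n)) :
    weight γ n (fun e => U e.1) T = Wt (fun e => wg γ (U e)) T.edgeFinset := by
  unfold weight Wt
  rw [← Finset.prod_subtype (⊤ : SimpleGraph (Fin n)).edgeFinset
    (p := fun e => e ∈ (⊤ : SimpleGraph (Fin n)).edgeSet) (fun e => SimpleGraph.mem_edgeFinset)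
    (fun e => if e ∈ T.edgeSet then Real.exp (U e ^ (-γ)) else 1), ← Finset.prod_filter]
  refine Finset.prod_congr ?_ (fun _ _ => rfl)
  ext e
  simp only [Finset.mem_filter, SimpleGraph.mem_edgeFinset]
  exact ⟨fun h => h.2, fun h => ⟨SimpleGraph.edgeSet_mono le_top h, h⟩⟩

lemma sum_eq (γ : ℝ) {n : ℕ} (hn : 1 ≤ n) (U : Sym2 (Fin n) → ℝ)
    (A : SimpleGraph (Fin n) → Prop) :
    (∑ T : SimpleGraph (Fin n), if T.IsTree ∧ A T then weight γ n (fun e => U e.1) T else 0) =
      ∑ S ∈ trees (Fin n), ind (A (gr S)) * Wt (fun e => wg γ (U e)) S := by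
  have h1 : ∀ T : SimpleGraph (Fin n),
      (if T.IsTree ∧ A T then weight γ n (fun e => U e.1) T else 0) =
      if T.IsTree then ind (A T) * weight γ n (fun e => U e.1) T else 0 := by
    intro T
    by_cases h : T.IsTree <;> by_cases h' : A T <;> simp [h, h', ind]
  rw [Finset.sum_congr rfl (fun T _ => h1 T), ← Finset.sum_filter]
  refine Finset.sum_nbij' (fun T => T.edgeFinset) gr ?_ ?_ ?_ ?_ ?_
  · intro T hT
    exact mem_trees.2 (isT_edgeFinset (Finset.mem_filter.1 hT).2)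
  · intro S hS
    exact Finset.mem_filter.2 ⟨Finset.mem_univ _, isTree_gr hn (mem_trees.1 hS)⟩
  · intro T _
    exact gr_edgeFinset T
  · intro S hS
    exact edgeFinset_gr (mem_trees.1 hS)
  · intro T _
    rw [gr_edgeFinset, weight_eq]

lemma quenched_eq (γ : ℝ) {n : ℕ} (hn : 1 ≤ n) (U : Sym2 (Fin n) → ℝ)
    (A : SimpleGraph (Fin n) → Prop) :
    quenched γ n (fun e => U e.1) A = Pq (fun e => wg γ (U e)) (fun S => A (gr S)) := by
  unfold quenched Pq Zf
  rw [sum_eq γ hn U A]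
  congr 1
  have := sum_eq γ hn U (fun _ => True)
  simpa [ind] using this

lemma meas_quenched (γ : ℝ) (n : ℕ) (A : SimpleGraph (Fin n) → Prop) :
    Measurable (fun U => quenched γ n U A) := by
  have hw : ∀ T, Measurable (fun U => weight γ n U T) := fun T =>
    Finset.measurable_prod _ (fun e _ => by
      split_ifs
      · exact (wg_meas γ).comp (measurable_pi_apply e)
      · exact measurable_const)
  refine Measurable.div (Finset.measurable_sum _ (fun T _ => ?_))
    (Finset.measurable_sum _ (fun T _ => ?_))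
  · split_ifs
    · exact hw T
    · exact measurable_const
  · split_ifs
    · exact hw T
    · exact measurable_const

lemma mp_res (n : ℕ) : MeasurePreserving (fun (U : Sym2 (Fin n) → ℝ) (e : Edge n) => U e.1)
    (mu (Sym2 (Fin n))) (env n) := by
  have h := measurePreserving_fst.comp (measurePreserving_piEquivPiSubtypeProd
    (fun _ : Sym2 (Fin n) => unif) (fun e => e ∈ (⊤ : SimpleGraph (Fin n)).edgeSet))
  refine ⟨h.1, h.2.trans ?_⟩
  unfold env unif
  congr 1

lemma averaged_eq (γ : ℝ) {n : ℕ} (hn : 1 ≤ n) (A : SimpleGraph (Fin n) → Prop) :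
    averaged γ n A = Pr γ (fun S => A (gr S)) := by
  unfold averaged Pr
  rw [← (mp_res n).map_eq, integral_map (mp_res n).measurable.aemeasurable
    (meas_quenched γ n A).aestronglyMeasurable]
  simp only [quenched_eq γ hn]

lemma exponent {γ : ℝ} (hγ : 0 < γ) : HasExponent γ (max (1 / 3) ((1 - γ) / 2)) := by
  intro ε hε
  refine (tend_main hγ hε).congr' ?_
  filter_upwards [eventually_ge_atTop 1] with n hn
  rw [averaged_eq γ hn]

lemma not_lt_exponent {γ α β : ℝ} (h : HasExponent γ α) (h' : HasExponent γ β) : ¬ α < β := by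
  intro hlt
  have hε : 0 < (β - α) / 3 := by linarith
  have h2 := le_of_tendsto ((h _ hε).add (h' _ hε)) (b := 1) (by
    filter_upwards [eventually_ge_atTop 2] with n hn
    rw [averaged_eq γ (by omega), averaged_eq γ (by omega)]
    refine Pr_add_le γ (fun S h1 h2 => ?_)
    have : (n : ℝ) ^ (α + (β - α) / 3) < (n : ℝ) ^ (β - (β - α) / 3) :=
      Real.rpow_lt_rpow_of_exponent_lt (by exact_mod_cast hn) (by linarith)
    linarith [h1.2, h2.1])
  linarith

lemma polylog {γ : ℝ} (hγ : 0 < γ) : Tendsto (fun n : ℕ => averaged γ n (fun T =>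
    (n : ℝ) ^ (max (1 / 3) ((1 - γ) / 2)) / Real.log n ^ 6 ≤ (T.diam : ℝ) ∧
      (T.diam : ℝ) ≤ (n : ℝ) ^ (max (1 / 3) ((1 - γ) / 2)) * Real.log n ^ 7)) atTop (𝓝 1) := by
  refine (tend_main2 hγ).congr' ?_
  filter_upwards [eventually_ge_atTop 1] with n hn
  rw [averaged_eq γ hn]

theorem result (γ : ℝ) (hγ : 0 < γ) :
    Tendsto (fun n : ℕ => averaged γ n (fun T =>
      (n : ℝ) ^ (max (1 / 3) ((1 - γ) / 2)) / Real.log n ^ 6 ≤ (T.diam : ℝ) ∧
        (T.diam : ℝ) ≤ (n : ℝ) ^ (max (1 / 3) ((1 - γ) / 2)) * Real.log n ^ 7)) atTop (𝓝 1) ∧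
    (∀ α : ℝ, HasExponent γ α ↔ α = max (1 / 3) ((1 - γ) / 2)) ∧
      ((∃ α : ℝ, 1 / 3 < α ∧ α < 1 / 2 ∧ HasExponent γ α) ↔ γ < 1 / 3) := by
  have key : ∀ α : ℝ, HasExponent γ α ↔ α = max (1 / 3) ((1 - γ) / 2) := fun α =>
    ⟨fun h => le_antisymm (not_lt.1 (not_lt_exponent (exponent hγ) h))
      (not_lt.1 (not_lt_exponent h (exponent hγ))), fun h => h ▸ exponent hγ⟩
  refine ⟨polylog hγ, key, ?_, fun h => ⟨_, ?_, ?_, exponent hγ⟩⟩
  · rintro ⟨α, h1, _, h3⟩
    rw [(key α).1 h3, lt_max_iff] at h1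
    rcases h1 with h1 | h1 <;> linarith
  · exact lt_max_of_lt_right (by linarith)
  · exact max_lt (by norm_num) (by linarith)

end Pool.Agent.Results.MP_1c11af_pr.Polylog
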